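import Pool.Agent.W788.NV.Stm

set_option autoImplicit false
set_option linter.unusedSectionVars false

namespace Pool.Agent.W371.NV.One

open Finset
open Pool.Agent.W788.NV

section
variable {V : Type} [Fintype V] [DecidableEq V] (G : SimpleGraph V) (q : ℕ) (θ : ℝ)

/-- the indicator -/
def ind (a : Fin q) (v : V) (x : V → Fin q) : ℝ := if x v = a then 1 else 0

/-- the rate of copying -/
noncomputable def ρ (v w : V) : ℝ := mrate G q θ (Sum.inr (v, w))

open Classical in
theorem ρ_eq (v w : V) : ρ G q θ v w = if G.Adj v w then (1 - θ) / (dg G v : ℝ) else 0 := rfl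

open Classical in
theorem dg_eq (v : V) : (dg G v : ℝ) = ∑ w, if G.Adj v w then (1 : ℝ) else 0 := by
  rw [← Finset.sum_filter, Finset.sum_const, nsmul_eq_mul, mul_one]
  rfl

theorem sum_ρ (v : V) (hv : 1 ≤ dg G v) : ∑ w, ρ G q θ v w = 1 - θ := by
  classical
  have h0 : (dg G v : ℝ) ≠ 0 := by
    have : (1 : ℝ) ≤ dg G v := by exact_mod_cast hv
    linarith
  have h1 : ∀ w, ρ G q θ v w = (1 - θ) / (dg G v : ℝ) * (if G.Adj v w then (1 : ℝ) else 0) := by
    intro w
    rw [ρ_eq]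
    split_ifs <;> simp
  rw [Finset.sum_congr rfl fun w _ => h1 w, ← Finset.mul_sum, ← dg_eq, div_mul_cancel₀ _ h0]

theorem ρ_nonneg (hθ1 : θ ≤ 1) (v w : V) : 0 ≤ ρ G q θ v w := by
  classical
  rw [ρ_eq]
  split_ifs
  · exact div_nonneg (by linarith) (Nat.cast_nonneg _)
  · exact le_rfl

theorem gf_ind (hq : 2 ≤ q) (a : Fin q) (v : V) (hv : 1 ≤ dg G v) (x : V → Fin q) :
    gf (mrate G q θ) (act (V := V) (q := q)) (ind q a v) x =
      -(ind q a v x) + θ / q + ∑ w, ρ G q θ v w * ind q a w x := by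
  have hq0 : (q : ℝ) ≠ 0 := by
    have : (2 : ℝ) ≤ q := by exact_mod_cast hq
    linarith
  unfold gf
  rw [Fintype.sum_sum_type, Fintype.sum_prod_type, Fintype.sum_prod_type]
  have e1 : ∑ u : V, ∑ b : Fin q, mrate G q θ (Sum.inl (u, b)) *
      (ind q a v (act (Sum.inl (u, b)) x) - ind q a v x) =
      ∑ b : Fin q, θ / q * ((if b = a then 1 else 0) - ind q a v x) := by
    rw [Finset.sum_eq_single v]
    · refine Finset.sum_congr rfl fun b _ => ?_
      simp [mrate, ind, act]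
    · intro u _ hu
      refine Finset.sum_eq_zero fun b _ => ?_
      have : (act (Sum.inl (u, b)) x : V → Fin q) v = x v := by
        simp [act, Function.update_of_ne hu.symm]
      simp [ind, this]
    · intro h; exact absurd (Finset.mem_univ v) h
  have e2 : ∑ u : V, ∑ w : V, mrate G q θ (Sum.inr (u, w)) *
      (ind q a v (act (Sum.inr (u, w)) x) - ind q a v x) =
      ∑ w : V, ρ G q θ v w * (ind q a w x - ind q a v x) := by
    rw [Finset.sum_eq_single v]
    · refine Finset.sum_congr rfl fun w _ => ?_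
      simp [ρ, ind, act]
    · intro u _ hu
      refine Finset.sum_eq_zero fun w _ => ?_
      have : (act (Sum.inr (u, w)) x : V → Fin q) v = x v := by
        simp [act, Function.update_of_ne hu.symm]
      simp [ind, this]
    · intro h; exact absurd (Finset.mem_univ v) h
  have e3 : ∑ b : Fin q, θ / q * ((if b = a then 1 else 0) - ind q a v x) =
      θ / q - θ * ind q a v x := by
    rw [← Finset.mul_sum, Finset.sum_sub_distrib]
    simp
    field_simp
  have e4 : ∑ w : V, ρ G q θ v w * (ind q a w x - ind q a v x) =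
      ∑ w : V, ρ G q θ v w * ind q a w x - (1 - θ) * ind q a v x := by
    simp only [mul_sub]
    rw [Finset.sum_sub_distrib, ← Finset.sum_mul, sum_ρ G q θ v hv]
  rw [e1, e2, e3, e4]
  ring

/-- the bias -/
noncomputable def bias (x0 : V → Fin q) (a : Fin q) (t : ℝ) (v : V) : ℝ :=
  pt G q θ t (ind q a v) x0 - 1 / q

theorem bias_deriv (h : MK) (hq : 2 ≤ q) (hd : ∀ v, 1 ≤ dg G v) (x0 : V → Fin q) (a : Fin q)
    (t : ℝ) (v : V) :
    HasDerivAt (fun t => bias G q θ x0 a t v)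
      (-(bias G q θ x0 a t v) + ∑ w, ρ G q θ v w * bias G q θ x0 a t w) t := by
  have hq0 : (q : ℝ) ≠ 0 := by
    have : (2 : ℝ) ≤ q := by exact_mod_cast hq
    linarith
  have h1 := (h.deriv (V → Fin q) ((V × Fin q) ⊕ (V × V)) (mrate G q θ) act (ind q a v) x0 t)
  have h2 := h1.sub_const (1 / (q : ℝ))
  refine h2.congr_deriv ?_
  have e1 : gf (mrate G q θ) (act (V := V) (q := q)) (ind q a v) =
      fun y => ∑ k : V ⊕ Bool, (Sum.elim (fun w => ρ G q θ v w)
        (fun b => cond b (-1) (θ / q)) k) *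
        (Sum.elim (fun w => ind q a w) (fun b => cond b (ind q a v) (fun _ => 1)) k :
          (V → Fin q) → ℝ) y := by
    funext y
    rw [gf_ind G q θ hq a v (hd v) y, Fintype.sum_sum_type]
    simp
    ring
  rw [e1, h.lin (V → Fin q) _ (V ⊕ Bool), Fintype.sum_sum_type]
  simp only [Sum.elim_inl, Sum.elim_inr, Fintype.sum_bool, cond_true, cond_false]
  rw [h.cst]
  have e2 : ∀ w, sg (mrate G q θ) act t (ind q a w) x0 = bias G q θ x0 a t w + 1 / q := by
    intro w
    unfold bias pt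
    ring
  simp only [e2]
  have e3 : ∑ w, ρ G q θ v w * (bias G q θ x0 a t w + 1 / q) =
      ∑ w, ρ G q θ v w * bias G q θ x0 a t w + (1 - θ) / q := by
    simp only [mul_add]
    rw [Finset.sum_add_distrib, ← Finset.sum_mul, sum_ρ G q θ v (hd v)]
    ring
  rw [e3]
  field_simp
  ring

/-- the energy -/
noncomputable def NN (x0 : V → Fin q) (a : Fin q) (t : ℝ) : ℝ :=
  ∑ v, (dg G v : ℝ) * (bias G q θ x0 a t v) ^ 2

theorem cross (hd : ∀ v, 1 ≤ dg G v) (hθ0 : 0 < θ) (hθ1 : θ ≤ 1) (m : V → ℝ) :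
    -(4 * ∑ v, (dg G v : ℝ) * m v ^ 2) ≤
      ∑ v, (dg G v : ℝ) * (2 * m v * (-(m v) + ∑ w, ρ G q θ v w * m w)) := by
  classical
  set N := ∑ v, (dg G v : ℝ) * m v ^ 2 with hN
  have hN0 : 0 ≤ N := Finset.sum_nonneg fun v _ => by positivity
  set c : V → V → ℝ := fun v w => if G.Adj v w then (1 : ℝ) else 0 with hc
  have hcs : ∀ v w, c v w = c w v := by
    intro v w
    simp only [hc, G.adj_comm v w]
  have hc0 : ∀ v w, 0 ≤ c v w := by
    intro v w
    simp only [hc]
    split_ifs <;> norm_num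
  have hdc : ∀ v, (dg G v : ℝ) = ∑ w, c v w := fun v => dg_eq G v
  have h1 : ∀ v w, (dg G v : ℝ) * ρ G q θ v w = (1 - θ) * c v w := by
    intro v w
    have h0 : (dg G v : ℝ) ≠ 0 := by
      have : (1 : ℝ) ≤ dg G v := by exact_mod_cast hd v
      linarith
    rw [ρ_eq]
    simp only [hc]
    split_ifs
    · field_simp
    · simp
  have e1 : ∑ v, (dg G v : ℝ) * (2 * m v * (-(m v) + ∑ w, ρ G q θ v w * m w)) =
      -(2 * N) + 2 * (1 - θ) * ∑ v, ∑ w, c v w * (m v * m w) := by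
    rw [hN, Finset.mul_sum, Finset.mul_sum, ← Finset.sum_neg_distrib, ← Finset.sum_add_distrib]
    refine Finset.sum_congr rfl fun v _ => ?_
    have : (dg G v : ℝ) * (2 * m v * (-(m v) + ∑ w, ρ G q θ v w * m w)) =
        -(2 * ((dg G v : ℝ) * m v ^ 2)) + 2 * m v * ((dg G v : ℝ) * ∑ w, ρ G q θ v w * m w) := by
      ring
    rw [this, Finset.mul_sum, Finset.mul_sum, Finset.mul_sum]
    congr 1
    refine Finset.sum_congr rfl fun w _ => ?_
    have := h1 v w
    calc 2 * m v * ((dg G v : ℝ) * (ρ G q θ v w * m w)) =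
        2 * m v * ((dg G v : ℝ) * ρ G q θ v w) * m w := by ring
      _ = _ := by rw [this]; ring
  have e2 : ∑ v, ∑ w, c v w * m v ^ 2 = N := by
    rw [hN]
    refine Finset.sum_congr rfl fun v _ => ?_
    rw [hdc, Finset.sum_mul]
  have e3 : ∑ v, ∑ w, c v w * m w ^ 2 = N := by
    rw [Finset.sum_comm, ← e2]
    refine Finset.sum_congr rfl fun v _ => Finset.sum_congr rfl fun w _ => ?_
    rw [hcs]
  have e4 : -N ≤ ∑ v, ∑ w, c v w * (m v * m w) := by
    have h2 : ∑ v, ∑ w, c v w * (-(m v ^ 2 + m w ^ 2) / 2) ≤ ∑ v, ∑ w, c v w * (m v * m w) := by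
      refine Finset.sum_le_sum fun v _ => Finset.sum_le_sum fun w _ => ?_
      refine mul_le_mul_of_nonneg_left ?_ (hc0 v w)
      nlinarith [sq_nonneg (m v + m w)]
    have h3 : ∑ v, ∑ w, c v w * (-(m v ^ 2 + m w ^ 2) / 2) = -N := by
      have : ∀ v w, c v w * (-(m v ^ 2 + m w ^ 2) / 2) =
          -(1 / 2) * (c v w * m v ^ 2) + -(1 / 2) * (c v w * m w ^ 2) := by
        intro v w; ring
      simp only [this, Finset.sum_add_distrib, ← Finset.mul_sum]
      rw [e2, e3]
      ring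
    linarith
  rw [e1]
  nlinarith

theorem NN_deriv (h : MK) (hq : 2 ≤ q) (hd : ∀ v, 1 ≤ dg G v) (x0 : V → Fin q) (a : Fin q)
    (t : ℝ) : HasDerivAt (fun t => NN G q θ x0 a t)
      (∑ v, (dg G v : ℝ) * (2 * bias G q θ x0 a t v *
        (-(bias G q θ x0 a t v) + ∑ w, ρ G q θ v w * bias G q θ x0 a t w))) t := by
  unfold NN
  refine HasDerivAt.fun_sum fun v _ => ?_
  have h1 := ((bias_deriv G q θ h hq hd x0 a t v).pow 2).const_mul (dg G v : ℝ)
  refine h1.congr_deriv ?_
  ring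

theorem NN_lower (h : MK) (hq : 2 ≤ q) (hθ0 : 0 < θ) (hθ1 : θ ≤ 1) (hd : ∀ v, 1 ≤ dg G v)
    (x0 : V → Fin q) (a : Fin q) (t : ℝ) (ht : 0 ≤ t) :
    (Fintype.card V : ℝ) * Real.exp (-4 * t) / q ^ 2 ≤ NN G q θ x0 a t := by
  have hq2 : (2 : ℝ) ≤ q := by exact_mod_cast hq
  have hE : ∀ t : ℝ, HasDerivAt (fun t : ℝ => Real.exp (4 * t)) (Real.exp (4 * t) * 4) t := by
    intro t
    have h1 : HasDerivAt (fun t : ℝ => 4 * t) 4 t := by
      simpa using (hasDerivAt_id t).const_mul (4 : ℝ)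
    exact h1.exp
  have hmono : MonotoneOn (fun t => Real.exp (4 * t) * NN G q θ x0 a t) (Set.Ici 0) := by
    have hder : ∀ t : ℝ, HasDerivAt (fun t => Real.exp (4 * t) * NN G q θ x0 a t)
        (Real.exp (4 * t) * 4 * NN G q θ x0 a t + Real.exp (4 * t) *
          (∑ v, (dg G v : ℝ) * (2 * bias G q θ x0 a t v *
        (-(bias G q θ x0 a t v) + ∑ w, ρ G q θ v w * bias G q θ x0 a t w)))) t := fun t =>
      (hE t).mul (NN_deriv G q θ h hq hd x0 a t)
    refine monotoneOn_of_deriv_nonneg (convex_Ici 0)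
      (fun t _ => (hder t).continuousAt.continuousWithinAt)
      (fun t _ => (hder t).differentiableAt.differentiableWithinAt) fun t _ => ?_
    rw [(hder t).deriv]
    have h1 := cross G q θ hd hθ0 hθ1 (bias G q θ x0 a t)
    have h2 : 0 < Real.exp (4 * t) := Real.exp_pos _
    have h3 : NN G q θ x0 a t = ∑ v, (dg G v : ℝ) * bias G q θ x0 a t v ^ 2 := rfl
    rw [← h3] at h1
    nlinarith
  have h1 := hmono (Set.mem_Ici.2 le_rfl) (Set.mem_Ici.2 ht) ht
  simp only [mul_zero, Real.exp_zero, one_mul] at h1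
  have h0 : (Fintype.card V : ℝ) / q ^ 2 ≤ NN G q θ x0 a 0 := by
    unfold NN
    have h2 : (Fintype.card V : ℝ) / q ^ 2 = ∑ _v : V, 1 / (q : ℝ) ^ 2 := by
      rw [Finset.sum_const, nsmul_eq_mul, Finset.card_univ]; ring
    rw [h2]
    refine Finset.sum_le_sum fun v _ => ?_
    have h3 : bias G q θ x0 a 0 v = ind q a v x0 - 1 / q := by
      unfold bias pt
      rw [h.zero]
    rw [h3]
    have h4 : 1 / (q : ℝ) ^ 2 ≤ (ind q a v x0 - 1 / q) ^ 2 := by
      unfold ind
      split_ifs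
      · have h5 : 1 / (q : ℝ) ≤ 1 / 2 := by
          rw [div_le_div_iff₀ (by linarith) (by norm_num)]; linarith
        have h6 : 0 ≤ 1 / (q : ℝ) := by positivity
        rw [show 1 / (q : ℝ) ^ 2 = (1 / q) ^ 2 by rw [div_pow, one_pow]]
        nlinarith
      · rw [zero_sub, neg_sq, div_pow, one_pow]
    have h5 : (1 : ℝ) ≤ dg G v := by exact_mod_cast hd v
    nlinarith [sq_nonneg (ind q a v x0 - 1 / q)]
  have h3 : Real.exp (-4 * t) * Real.exp (4 * t) = 1 := by
    rw [← Real.exp_add]; simp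
  calc (Fintype.card V : ℝ) * Real.exp (-4 * t) / q ^ 2 =
      Real.exp (-4 * t) * ((Fintype.card V : ℝ) / q ^ 2) := by ring
    _ ≤ Real.exp (-4 * t) * (Real.exp (4 * t) * NN G q θ x0 a t) :=
        mul_le_mul_of_nonneg_left (h0.trans h1) (Real.exp_pos _).le
    _ = NN G q θ x0 a t := by rw [← mul_assoc, h3, one_mul]

theorem stat (h : MK) (h1 : S_LAW) (hq : 2 ≤ q) (hθ0 : 0 < θ) (hθ1 : θ ≤ 1)
    (hd : ∀ v, 1 ≤ dg G v) (a : Fin q) (μ : (V → Fin q) → ℝ) (hμ : IsStat G q θ μ) (v : V) :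
    mean μ (ind q a v) = 1 / q := by
  have hq0 : (q : ℝ) ≠ 0 := by
    have : (2 : ℝ) ≤ q := by exact_mod_cast hq
    linarith
  have hinv := (h1 V G q θ (by omega) hθ0 hθ1 hd).2.2 μ hμ
  have hgen : ∀ f : (V → Fin q) → ℝ, mean μ (gf (mrate G q θ) act f) = 0 := by
    intro f
    have e1 : HasDerivAt (fun t => mean μ (pt G q θ t f))
        (mean μ (pt G q θ 0 (gf (mrate G q θ) act f))) 0 := by
      unfold mean
      refine HasDerivAt.fun_sum fun x _ => ?_
      exact (h.deriv (V → Fin q) _ (mrate G q θ) act f x 0).const_mul (μ x)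
    have e2 : (fun t => mean μ (pt G q θ t f)) = fun _ => mean μ f := by
      funext t; exact hinv t f
    rw [e2, hinv] at e1
    exact e1.unique (hasDerivAt_const 0 _)
  set w : V → ℝ := fun v => mean μ (ind q a v) - 1 / q with hw
  have hmass : ∑ x, μ x = 1 := hμ.2.1
  have hrec : ∀ v, w v = ∑ u, ρ G q θ v u * w u := by
    intro v
    have e1 := hgen (ind q a v)
    have e2 : gf (mrate G q θ) (act (V := V) (q := q)) (ind q a v) = fun x =>
        -(ind q a v x) + θ / q + ∑ u, ρ G q θ v u * ind q a u x := by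
      funext x; exact gf_ind G q θ hq a v (hd v) x
    rw [e2] at e1
    have e3 : mean μ (fun x => -(ind q a v x) + θ / q + ∑ u, ρ G q θ v u * ind q a u x) =
        -(mean μ (ind q a v)) + θ / q + ∑ u, ρ G q θ v u * mean μ (ind q a u) := by
      unfold mean
      simp only [mul_add, Finset.sum_add_distrib, mul_neg, Finset.sum_neg_distrib]
      rw [← Finset.sum_mul, hmass, one_mul]
      congr 1
      simp only [Finset.mul_sum]
      rw [Finset.sum_comm]
      refine Finset.sum_congr rfl fun u _ => Finset.sum_congr rfl fun x _ => ?_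
      ring
    rw [e3] at e1
    have e4 : ∑ u, ρ G q θ v u * w u = ∑ u, ρ G q θ v u * mean μ (ind q a u) - (1 - θ) / q := by
      simp only [hw, mul_sub]
      rw [Finset.sum_sub_distrib, ← Finset.sum_mul, sum_ρ G q θ v (hd v)]
      ring
    rw [e4]
    simp only [hw]
    have : (1 - θ) / (q : ℝ) = 1 / q - θ / q := by ring
    rw [this]
    linarith
  obtain ⟨v0, _, hv0⟩ := Finset.exists_max_image Finset.univ (fun v => |w v|) ⟨v, mem_univ v⟩
  have h2 : |w v0| ≤ (1 - θ) * |w v0| := by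
    calc |w v0| = |∑ u, ρ G q θ v0 u * w u| := by rw [← hrec]
      _ ≤ ∑ u, |ρ G q θ v0 u * w u| := Finset.abs_sum_le_sum_abs _ _
      _ ≤ ∑ u, ρ G q θ v0 u * |w v0| := by
          refine Finset.sum_le_sum fun u _ => ?_
          rw [abs_mul, abs_of_nonneg (ρ_nonneg G q θ hθ1 v0 u)]
          exact mul_le_mul_of_nonneg_left (hv0 u (mem_univ u)) (ρ_nonneg G q θ hθ1 v0 u)
      _ = (1 - θ) * |w v0| := by rw [← Finset.sum_mul, sum_ρ G q θ v0 (hd v0)]
  have h3 : |w v0| = 0 := by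
    have := abs_nonneg (w v0)
    nlinarith
  have h4 : |w v| ≤ 0 := by rw [← h3]; exact hv0 v (mem_univ v)
  have h5 : w v = 0 := abs_eq_zero.1 (le_antisymm h4 (abs_nonneg _))
  simp only [hw] at h5
  linarith

end

theorem one_ (h : MK) (h1 : S_LAW) (_h2 : S_TOT) (_h3 : S_GEN) : S_ONE := by
  intro V _ _ G q θ hq hθ0 hθ1 hd x0 a t ht
  refine ⟨?_, fun μ hμ v => ?_⟩
  · exact NN_lower G q θ h hq hθ0 hθ1 hd x0 a t ht
  · exact stat G q θ h h1 hq hθ0 hθ1 hd a μ hμ v

end Pool.Agent.W371.NV.One
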